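import Pool.Agent.TH169.GO.Main

/-!
# The Gorenstein locus of the Hilbert scheme of 138 points of affine 4-space

A closed subscheme of length `d` of affine `4`-space over `ℂ`, together with a basis of its
coordinate ring, is the same as four commuting complex `d × d` matrices (multiplication by the
coordinates) and a cyclic vector (the unit element). The dual of the coordinate ring is a cyclic
module, that is, there is a cyclic covector, if and only if the scheme is Gorenstein. So `GorHilb d`
is the Gorenstein locus of `Hilb_d(𝔸⁴)` with frames, a principal bundle with the (connected) group
`GL_d` over this locus, and it is irreducible if and only if the Gorenstein locus is.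

It is known that the Gorenstein locus is reducible for `d = 140`: the family of the compressed local
Gorenstein algebras of socle degree nine, with Hilbert function `(1,4,10,20,35,35,20,10,4,1)`, is too
large. We show that it is reducible for some `d ≤ 138`. The family used consists of the local
algebras given by the polynomials `f = f₉ + f₈ + …` (inverse systems) for which some quartic
differential operator `q` satisfies `q f₉ = 0` and `q² f₈ = 0`; they have Hilbert function
`(1,4,10,20,34,34,20,10,4,1)` in general, and length at most `138` always.

The proof: there are `34 + 164 + 164 + 330 = 692` parameters. If the Gorenstein locus is irreducible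
then it is the closure of the set of the subschemes of lines (up to automorphism: the first matrix
has a cyclic vector), so that all coordinates of the matrices are algebraic over `ℚ` and
`d² + 4 d` of them. A generic polynomial of the family, a generic frame and the quartic `q` are
algebraic over these coordinates, the `d` coordinates of the functional given by `f`, and `κ - 1`
further numbers, where `κ` is the dimension of the space of the quartics that kill `f₉`. Hence
`692 ≤ 5 d + κ - 1`, but `d ≤ 138` and `d ≤ 140 - κ`.
-/

set_option autoImplicit false

open Pool.Agent.TH169.GO

namespace Pool.Agent.Results.MP_2cea55_ag.GorensteinPoints138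

/-- For some `d ≤ 138` the Gorenstein locus of the Hilbert scheme of `d` points of affine `4`-space
over `ℂ` is reducible: there are polynomials `F` and `G` in the coordinates of the framed points,
neither of which vanishes on the framed Gorenstein locus `GorHilb d`, whose product vanishes on it.
So the smallest `d` with this property is at most `138`. -/
theorem result : ∃ d : ℕ, 1 ≤ d ∧ d ≤ 138 ∧ ∃ F G : MvPolynomial (Idx d) ℂ,
    (∃ p ∈ GorHilb d, MvPolynomial.eval p F ≠ 0) ∧
    (∃ p ∈ GorHilb d, MvPolynomial.eval p G ≠ 0) ∧
    ∀ p ∈ GorHilb d, MvPolynomial.eval p F * MvPolynomial.eval p G = 0 := by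
  obtain ⟨d, h1, h2, h3⟩ := main
  obtain ⟨c, hc, -⟩ := exists_good d
  refine ⟨d, h1, h2, ?_⟩
  by_contra hcon
  push Not at hcon
  apply h3
  refine ⟨⟨c, hc⟩, fun F G hFG => ?_⟩
  by_contra hor
  push Not at hor
  obtain ⟨⟨p, hp, hpF⟩, p', hp', hpG⟩ := hor
  obtain ⟨p'', hp'', h4⟩ := hcon F G ⟨p, hp, hpF⟩ ⟨p', hp', hpG⟩
  exact h4 (hFG p'' hp'')

end Pool.Agent.Results.MP_2cea55_ag.GorensteinPoints138
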